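import Pool.Agent.helper27.PC3.Stmt3
import Pool.Agent.helper79.PC2.LB
import Pool.Agent.helper80.PC2.LALG
import Pool.Agent.helper23.PC2.COL
import Pool.Agent.helper46.PC2.NZ

/-!
# PC project, third part, module B2: one part `2` and at most one part `1`
-/

set_option autoImplicit false

namespace Pool.Agent.helper27.PC

open Module Polynomial Finset

theorem B2_YO (t p : Bool) (u : St →₀ ℤ) : YO t p 1 u =
    if p then Low (fun _ => (1 : ℤ)) 1 u else - Low (xt t) 1 u := by
  cases p
  · unfold YO EO
    simp
  · unfold YO PO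
    simp

/-- the weight in the commutator -/
def B2_W (t : Bool) (x : Lab → ℤ) (l : Lab) : ℤ := x (up 1 l) * xt t l - x (dn 1 l) * xt t (dn 1 l)

theorem B2_W_one (t : Bool) {l : Lab} (hl : 1 ≤ l.2) : B2_W t (fun _ => 1) l = 2 * xt t l := by
  unfold B2_W
  rw [NZ_xt_dn t 1 l hl]
  ring

theorem B2_W_xt (t : Bool) {l : Lab} (hl : 1 ≤ l.2) : B2_W t (xt t) l = -2 := by
  unfold B2_W
  rw [NZ_xt_dn t 1 l hl, NZ_xt_up]
  linear_combination (-2) * NZ_xt_sq t l

theorem B2_comm (t : Bool) (x : Lab → ℤ) (n k : ℕ) (u : St →₀ ℤ) (hu : GV n k u) (hk : k + 2 ≤ n) :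
    Low x 1 (Rib (xt t) 2 u) = Rib (xt t) 2 (Low x 1 u) + Rib (B2_W t x) 1 u := by
  have h := (LB ℤ x (xt t) n k 1 2 u le_rfl (by omega) hu hk).1 (by omega)
  rw [sub_eq_iff_eq_add, add_comm] at h
  exact h

theorem B2_xt_ne (t : Bool) (l : Lab) : xt t l ≠ 0 := by
  intro h
  have := NZ_xt_sq t l
  rw [h] at this
  norm_num at this

/-- one part `2`, at most one part `1` -/
theorem B2 : B2_stmt := by
  intro t p n
  have hv : GV n 0 (Finsupp.single (vac n) (1 : ℤ)) := by
    intro S hS
    have h := Finsupp.support_single_subset hS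
    rw [Finset.mem_singleton] at h
    rw [h]
    exact SD_good_vac n
  constructor
  · intro hn h
    have key : ∀ x : Lab → ℤ, Low x 1 (Rib (xt t) 2 (Finsupp.single (vac n) 1)) = 0 →
        B2_W t x (false, n - 1) = 0 := by
      intro x hx
      rw [B2_comm t x n 0 _ hv (by omega)] at hx
      have h1 := congrArg (fun v : St →₀ ℤ => v (col n 0 1)) hx
      simp only [Finsupp.add_apply, Finsupp.zero_apply] at h1
      rw [COL ℤ _ n 2 0 1 _ (by omega) (by omega) (by omega),
        COL ℤ _ n 1 0 1 _ (by omega) (by omega) (by omega)] at h1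
      rw [if_neg (by omega), if_neg (by omega), if_neg (by omega), if_pos (by omega), Nat.sub_self,
        NZ_col_zero, Finsupp.single_eq_same] at h1
      simpa using h1
    rw [B2_YO] at h
    cases p
    · rw [if_neg (by simp), neg_eq_zero] at h
      have h2 := key _ h
      rw [B2_W_xt t (show 1 ≤ n - 1 by omega)] at h2
      norm_num at h2
    · rw [if_pos rfl] at h
      have h2 := key _ h
      rw [B2_W_one t (show 1 ≤ n - 1 by omega)] at h2
      exact B2_xt_ne t _ (by linarith)
  · intro hn htp h
    have hv1 : GV n 1 (Rib (xt t) 1 (Finsupp.single (vac n) (1 : ℤ))) := by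
      have := (LG ℤ (xt t) n 0 1 _ le_rfl hv).1
      rwa [zero_add] at this
    have key : ∀ x : Lab → ℤ,
        Low x 1 (Rib (xt t) 2 (Rib (xt t) 1 (Finsupp.single (vac n) 1))) = 0 →
        B2_W t x (true, n - 1) * xt t (false, n - 1) +
          B2_W t x (false, n - 1) * xt t (true, n - 1) = 0 := by
      intro x hx
      rw [B2_comm t x n 1 _ hv1 (by omega)] at hx
      have h1 := congrArg (fun v : St →₀ ℤ => v (col n 1 1)) hx
      simp only [Finsupp.add_apply, Finsupp.zero_apply] at h1
      rw [COL ℤ _ n 2 1 1 _ (by omega) (by omega) (by omega),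
        COL ℤ _ n 1 1 1 _ (by omega) (by omega) (by omega)] at h1
      rw [if_neg (by omega), if_neg (by omega), if_pos le_rfl, if_pos le_rfl, Nat.sub_self,
        COL ℤ _ n 1 0 1 _ (by omega) (by omega) (by omega),
        COL ℤ _ n 1 1 0 _ (by omega) (by omega) (by omega)] at h1
      rw [if_neg (by omega), if_pos le_rfl, if_pos le_rfl, if_neg (by omega), Nat.sub_self,
        NZ_col_zero, Finsupp.single_eq_same] at h1
      simpa using h1
    rw [B2_YO] at h
    cases p
    · have ht : t = true := by
        cases t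
        · exact absurd ⟨rfl, rfl⟩ htp
        · rfl
      subst ht
      rw [if_neg (by simp), neg_eq_zero] at h
      have h2 := key _ h
      rw [B2_W_xt true (show 1 ≤ n - 1 by omega), B2_W_xt true (show 1 ≤ n - 1 by omega)] at h2
      have h3 : xt true (false, n - 1) = xt true (true, n - 1) := by
        unfold xt; simp
      rw [h3] at h2
      exact B2_xt_ne true (true, n - 1) (by linarith)
    · rw [if_pos rfl] at h
      have h2 := key _ h
      rw [B2_W_one t (show 1 ≤ n - 1 by omega), B2_W_one t (show 1 ≤ n - 1 by omega)] at h2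
      have h3 : xt t (true, n - 1) * xt t (false, n - 1) = 0 := by linarith
      rcases mul_eq_zero.1 h3 with h4 | h4
      · exact B2_xt_ne t _ h4
      · exact B2_xt_ne t _ h4

end Pool.Agent.helper27.PC
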